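import Pool.Agent.MP_755159_pr.G.Main

namespace Pool.Agent.Results.MP_755159_pr.HamiltonianBase

/-- If `H` is a Hamiltonian graph on at least five vertices with minimum degree at least three,
the proportion of `n`-lifts of `H` (one permutation of `Fin n` for each edge) that are
Hamiltonian tends to `1`. -/
theorem result (h : ℕ) (hh : 5 ≤ h) (H : SimpleGraph (Fin h)) [DecidableRel H.Adj]
    (hH : H.IsHamiltonian) (hd : ∀ v, 3 ≤ H.degree v) :
    Filter.Tendsto (fun n : ℕ =>
      (({σ : {p : Fin h × Fin h // p.1 < p.2 ∧ H.Adj p.1 p.2} → Equiv.Perm (Fin n) |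
          (SimpleGraph.fromRel (fun u v : Fin h × Fin n =>
            ∃ hp : u.1 < v.1 ∧ H.Adj u.1 v.1, σ ⟨(u.1, v.1), hp⟩ u.2 = v.2)).IsHamiltonian}.ncard
          : ℕ) : ℝ) /
        (Fintype.card ({p : Fin h × Fin h // p.1 < p.2 ∧ H.Adj p.1 p.2} → Equiv.Perm (Fin n)) : ℝ))
      Filter.atTop (nhds 1) :=
  haveI : Fact (2 < h) := ⟨by omega⟩
  Pool.Agent.MP_755159_pr.G.lift_ham hH hd

end Pool.Agent.Results.MP_755159_pr.HamiltonianBase
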