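import Pool.Agent.MP_755159_pr.G.ZEx

namespace Pool.Agent.Results.MP_755159_pr.NoZeroOneLaw

/-- There is a connected graph `H` such that the proportion of `n`-lifts of `H` (one permutation
of `Fin n` for each edge) that are Hamiltonian stays between `1/512` and `7/8` for all large `n`. -/
theorem result : ∃ H : SimpleGraph (Fin 16), H.Connected ∧ ∀ᶠ n : ℕ in Filter.atTop,
    (({σ : {p : Fin 16 × Fin 16 // p.1 < p.2 ∧ H.Adj p.1 p.2} → Equiv.Perm (Fin n) |
        (SimpleGraph.fromRel (fun u v : Fin 16 × Fin n =>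
          ∃ hp : u.1 < v.1 ∧ H.Adj u.1 v.1, σ ⟨(u.1, v.1), hp⟩ u.2 = v.2)).IsHamiltonian}.ncard
        : ℕ) : ℝ) /
      (Nat.card ({p : Fin 16 × Fin 16 // p.1 < p.2 ∧ H.Adj p.1 p.2} → Equiv.Perm (Fin n)) : ℝ)
      ∈ Set.Icc (1 / 512 : ℝ) (7 / 8) :=
  Pool.Agent.MP_755159_pr.G.no_zero_one

end Pool.Agent.Results.MP_755159_pr.NoZeroOneLaw
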