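import Pool.Agent.Mg.F755159.G37dde7

namespace Pool.Agent.Results.MP_755159_pr.RandomLiftK4

/-- The proportion of `n`-lifts of `K₄` (one permutation of `Fin n` for each of the six edges)
that are Hamiltonian tends to `1`. -/
theorem result :
    Filter.Tendsto (fun n : ℕ =>
      (({σ : {p : Fin 4 × Fin 4 // p.1 < p.2} → Equiv.Perm (Fin n) |
          (SimpleGraph.fromRel (fun u v : Fin 4 × Fin n =>
            ∃ h : u.1 < v.1, σ ⟨(u.1, v.1), h⟩ u.2 = v.2)).IsHamiltonian}.ncard : ℕ) : ℝ) /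
        (Fintype.card ({p : Fin 4 × Fin 4 // p.1 < p.2} → Equiv.Perm (Fin n)) : ℝ))
      Filter.atTop (nhds 1) :=
  Pool.Agent.MP_755159_pr.lift_ham

end Pool.Agent.Results.MP_755159_pr.RandomLiftK4
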